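import Pool.Agent.U978.MV6.MFa

/-!
# Project MV6, package MF: the moments with far shifts
-/

set_option autoImplicit false

namespace Pool.Agent.U978.MV6

open MeasureTheory Filter Topology Set Pool.Agent.U398.MV Pool.Agent.U688.MV4
open scoped Nat

theorem m1a {N : ℝ → ℕ} (hN : Monotone N) (h2 : M2 N) (p : ℕ) (B : ℝ) :
    ∃ C T0 : ℝ, 0 < C ∧ 10 ≤ T0 ∧ ∀ T : ℝ, T0 ≤ T → ∀ x y : ℝ, |x| ≤ T / 4 → |x - y| ≤ B → x ≤ y →
    (∫ t in (3 * T / 4)..(3 * T), (sg N (t + x) - sg N (t + y)) ^ (2 * p)) ≤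
      C * T * (1 + Real.log (1 + |x - y| * Real.log T)) ^ p := by
  obtain ⟨C, T0, hC, hT0, H⟩ := block h2 p B
  refine ⟨4 * C, 2 * T0, by positivity, by linarith, ?_⟩
  intro T hT x y hx hxyB hxy
  have b1 : 2 * T0 ≤ T := hT
  have hTp : 0 < T := by linarith
  have hl : 1 ≤ Real.log T := log_ge_one (by linarith)
  set h : ℝ := y - x with hh
  have hh0 : 0 ≤ h := by linarith
  have hx' := abs_le.1 hx
  have habs : |x - y| = h := by rw [abs_sub_comm, abs_of_nonneg hh0]
  have hhB : h ≤ B := by rw [← habs]; exact hxyB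
  rw [habs]
  set r : ℝ := 1 + h * Real.log T with hr
  have hr1 : 1 ≤ r := by
    have : 0 ≤ h * Real.log T := by positivity
    linarith
  have hlr : 0 ≤ Real.log r := Real.log_nonneg hr1
  set q : ℝ := (1 + Real.log r) ^ p with hq
  have hq0 : 0 ≤ q := by positivity
  set f : ℝ → ℝ := fun t => (sg N t - sg N (t + h)) ^ (2 * p) with hf
  have hf0 : ∀ t, 0 ≤ f t := fun t => by
    rw [hf]
    simp only
    rw [pow_mul]
    positivity
  have hfm : Measurable f :=
    ((meas_sg hN).sub ((meas_sg hN).comp (measurable_id.add_const _))).pow_const _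
  have hfi : ∀ a b : ℝ, a ≤ b → IntervalIntegrable f volume a b := by
    intro a b hab
    obtain ⟨M1, hM1, hM1'⟩ := bdd_sg hN a b
    obtain ⟨M3, hM3, hM3'⟩ := bdd_sg hN (a + h) (b + h)
    refine ii_of_bdd (M := (M1 + M3) ^ (2 * p)) hab hfm.aestronglyMeasurable
      (Eventually.of_forall fun t ht => ?_)
    rw [hf]
    simp only
    rw [abs_pow]
    refine pow_le_pow_left₀ (abs_nonneg _) ?_ _
    have u1 := abs_le.1 (hM1' t ht.1.le ht.2)
    have u2 := abs_le.1 (hM3' (t + h) (by linarith [ht.1]) (by linarith [ht.2]))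
    rw [abs_le]
    constructor <;> linarith [u1.1, u1.2, u2.1, u2.2]
  have e1 : (∫ t in (3 * T / 4)..(3 * T), (sg N (t + x) - sg N (t + y)) ^ (2 * p)) =
      ∫ t in (3 * T / 4 + x)..(3 * T + x), f t := by
    rw [← intervalIntegral.integral_comp_add_right f x]
    refine intervalIntegral.integral_congr fun t _ => ?_
    simp only [hf]
    congr 3
    rw [hh]
    ring
  rw [e1]
  have e2 : (∫ t in (3 * T / 4 + x)..(3 * T + x), f t) ≤ ∫ t in (T / 2)..(4 * T), f t :=
    intervalIntegral.integral_mono_interval (by linarith [hx'.1]) (by linarith)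
      (by linarith [hx'.2]) (Eventually.of_forall hf0) (hfi _ _ (by linarith))
  have e3 : (∫ t in (T / 2)..(4 * T), f t) =
      (∫ t in (T / 2)..(2 * (T / 2)), f t) + (∫ t in T..(2 * T), f t) +
        ∫ t in (2 * T)..(2 * (2 * T)), f t := by
    have g1 : 2 * (T / 2) = T := by ring
    have g2 : 2 * (2 * T) = 4 * T := by ring
    rw [g1, g2, intervalIntegral.integral_add_adjacent_intervals (hfi _ _ (by linarith))
      (hfi _ _ (by linarith)), intervalIntegral.integral_add_adjacent_intervals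
      (hfi _ _ (by linarith)) (hfi _ _ (by linarith))]
  have hll : ∀ T' : ℝ, 0 < T' → T' ≤ 2 * T → h * Real.log T' ≤ 2 * Real.pi * r := by
    intro T' h0 hT'
    have v1 : Real.log T' ≤ 2 * Real.log T := by
      calc Real.log T' ≤ Real.log (2 * T) := Real.log_le_log h0 hT'
        _ = Real.log 2 + Real.log T := Real.log_mul (by norm_num) hTp.ne'
        _ ≤ 2 * Real.log T := by linarith [Real.log_two_lt_d9]
    have v2 : h * Real.log T' ≤ h * (2 * Real.log T) := mul_le_mul_of_nonneg_left v1 hh0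
    have v3 : h * Real.log T = r - 1 := by rw [hr]; ring
    have v4 : r ≤ Real.pi * r := le_mul_of_one_le_left (by linarith) (by linarith [Real.pi_gt_three])
    calc h * Real.log T' ≤ h * (2 * Real.log T) := v2
      _ = 2 * (r - 1) := by rw [← v3]; ring
      _ ≤ 2 * Real.pi * r := by linarith
  have f1 := H (T / 2) (by linarith) h r hh0 hhB hr1 (hll _ (by linarith) (by linarith))
  have f2 := H T (by linarith) h r hh0 hhB hr1 (hll _ (by linarith) (by linarith))
  have f3 := H (2 * T) (by linarith) h r hh0 hhB hr1 (hll _ (by linarith) (by linarith))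
  rw [e3] at e2
  refine e2.trans ?_
  have f4 : 0 ≤ C * T * q := by positivity
  have f5 : C * (T / 2) * q = C * T * q / 2 := by ring
  have f6 : C * (2 * T) * q = 2 * (C * T * q) := by ring
  have f7 : 4 * C * T * q = 4 * (C * T * q) := by ring
  rw [f5] at f1
  rw [f6] at f3
  rw [f7]
  linarith

/-- facts for `T ≥ exp 20` -/
theorem lg {T : ℝ} (hT : Real.exp 20 ≤ T) : 20 ≤ Real.log T ∧ 20 ≤ T ∧
    0 < T / Real.log T ^ 3 ∧ T / Real.log T ^ 3 ≤ T / 20 ∧ ∀ T' : ℝ, T / 2 ≤ T' → T' ≤ 4 * T →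
      2 * (T / Real.log T ^ 3) ≤ T' / (Real.log T') ^ 2 := by
  have he : (20 : ℝ) + 1 ≤ Real.exp 20 := Real.add_one_le_exp 20
  have hTp : 0 < T := by linarith
  have hL : 20 ≤ Real.log T := by
    rw [Real.le_log_iff_exp_le hTp]; exact hT
  have hL0 : 0 < Real.log T := by linarith
  have h3 : (20 : ℝ) ≤ Real.log T ^ 3 := by
    calc (20 : ℝ) ≤ 20 ^ 3 := by norm_num
      _ ≤ _ := pow_le_pow_left₀ (by norm_num) hL 3
  refine ⟨hL, by linarith, by positivity,
    div_le_div_of_nonneg_left hTp.le (by norm_num) h3, ?_⟩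
  intro T' h1 h2
  have hT'1 : 1 < T' := by linarith
  have hl' : 0 < Real.log T' := Real.log_pos hT'1
  have hl2 : Real.log T' ≤ 2 * Real.log T := by
    calc Real.log T' ≤ Real.log (4 * T) := Real.log_le_log (by linarith) h2
      _ = Real.log 4 + Real.log T := Real.log_mul (by norm_num) hTp.ne'
      _ ≤ 2 * Real.log T := by
        have e2 : Real.log 4 = 2 * Real.log 2 := by
          rw [show (4 : ℝ) = 2 ^ 2 by norm_num, Real.log_pow]; norm_num
        linarith [Real.log_two_lt_d9]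
  rw [le_div_iff₀ (by positivity)]
  have h4 : Real.log T' ^ 2 ≤ (2 * Real.log T) ^ 2 := pow_le_pow_left₀ hl'.le hl2 2
  calc 2 * (T / Real.log T ^ 3) * Real.log T' ^ 2 ≤
        2 * (T / Real.log T ^ 3) * (2 * Real.log T) ^ 2 :=
        mul_le_mul_of_nonneg_left h4 (by positivity)
    _ = 8 * T / Real.log T := by field_simp; ring
    _ ≤ T / 2 := by
      rw [div_le_iff₀ hL0]
      nlinarith
    _ ≤ T' := h1

theorem shifts {T : ℝ} (hT : Real.exp 20 ≤ T) {m : ℕ} {c x : Fin m → ℝ} (hA : Adm T c x)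
    {T' : ℝ} (h1 : T / 2 ≤ T') (h2 : T' ≤ 4 * T) :
    ∀ i, 0 ≤ (fun i => x i + T / Real.log T ^ 3) i ∧
      (fun i => x i + T / Real.log T ^ 3) i ≤ T' / (Real.log T') ^ 2 := by
  intro i
  have h3 := abs_le.1 (hA.2.2 i)
  have h4 := (lg hT).2.2.2.2 T' h1 h2
  simp only
  constructor
  · linarith [h3.1]
  · linarith [h3.2]

section main

variable {N : ℝ → ℕ} (hN : Monotone N) {Z : Set ℝ} {C1 : ℝ} (hZ : volume Z = 0) (hC1 : 0 < C1)
    (hcmp : ∀ t u : ℝ, t ∉ Z → u ∉ Z → 10 ≤ t → t < u → u ≤ 2 * t →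
      |(pS u - pS t) - (sg N u - sg N t)| ≤ C1)
    (hT3 : S_TH3) (hP : S_PRS)

include hN hZ hC1 hcmp hT3

theorem mU (p : ℕ) : ∃ C T0 : ℝ, 0 < C ∧ 10 ≤ T0 ∧ ∀ T : ℝ, T0 ≤ T → ∀ (m : ℕ) (c x : Fin m → ℝ),
    (∑ i, |c i|) ≤ 1 → (∑ i, c i) = 0 → (∀ i, 0 ≤ x i ∧ x i ≤ T / (Real.log T) ^ 2) →
    (∫ t in T..(2 * T), Gf N c x t ^ (2 * p)) ≤ C * T * (1 + |Vh T c x|) ^ p := by
  rcases Nat.eq_zero_or_pos p with rfl | hp
  · refine ⟨1, 10, one_pos, le_refl _, fun T hTT m c x h1 h0 hx => ?_⟩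
    simp only [mul_zero, pow_zero, mul_one]
    rw [intervalIntegral.integral_const, smul_eq_mul, mul_one]
    linarith
  obtain ⟨C, T0, hC, hT0, H⟩ := mA hN hZ hC1 hcmp hT3 (2 * p) (by omega)
  obtain ⟨D, hD, HD⟩ := gM_bd p
  refine ⟨C + D, T0, by positivity, hT0, fun T hT m c x h1 h2 h3 => ?_⟩
  have hTp : 0 < T := by linarith
  have hV := abs_nonneg (Vh T c x)
  have k1 := (abs_le.1 (H T hT m c x h1 h2 h3)).2
  have k2 := (abs_le.1 (HD (Vh T c x) (1 + |Vh T c x|) (by linarith) (by linarith))).2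
  have k3 : (1 + |Vh T c x|) ^ ((((2 * p : ℕ) : ℝ) - 1) / 2) ≤ (1 + |Vh T c x|) ^ p := by
    rw [← Real.rpow_natCast (1 + |Vh T c x|) p]
    refine Real.rpow_le_rpow_of_exponent_le (by linarith) ?_
    push_cast
    linarith
  have k4 := mul_le_mul_of_nonneg_left k3 hC.le
  set I : ℝ := ∫ t in T..(2 * T), Gf N c x t ^ (2 * p) with hI
  have k5 : 1 / T * I ≤ (C + D) * (1 + |Vh T c x|) ^ p := by linarith
  have k6 : I = T * (1 / T * I) := by field_simp
  rw [k6]
  calc T * (1 / T * I) ≤ T * ((C + D) * (1 + |Vh T c x|) ^ p) :=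
        mul_le_mul_of_nonneg_left k5 hTp.le
    _ = _ := by ring

include hP

theorem m3 (p : ℕ) : ∃ C T0 : ℝ, 0 < C ∧ 10 ≤ T0 ∧ ∀ T : ℝ, T0 ≤ T → ∀ (m : ℕ)
    (c x : Fin m → ℝ), Adm T c x →
    (∫ t in (3 * T / 4)..(3 * T), Gf N c x t ^ (2 * p)) ≤ C * T * (1 + |Vh T c x|) ^ p := by
  obtain ⟨C, T1, hC, hT1, H⟩ := mU hN hZ hC1 hcmp hT3 p
  obtain ⟨C4, hC4, H4⟩ := Vh_cmp2 hP
  refine ⟨12 * C * (1 + C4) ^ p, max (2 * T1) (Real.exp 20), by positivity,
    le_max_of_le_left (by linarith), ?_⟩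
  intro T hT m c x hA
  have t1 : 2 * T1 ≤ T := (le_max_left _ _).trans hT
  have t2 : Real.exp 20 ≤ T := (le_max_right _ _).trans hT
  obtain ⟨hL, hT20, hs0, hs1, -⟩ := lg t2
  set s : ℝ := T / Real.log T ^ 3 with hs
  have hTp : 0 < T := by linarith
  have hV := abs_nonneg (Vh T c x)
  have f0 : ∀ t, 0 ≤ Gf N c x t ^ (2 * p) := fun t => by rw [pow_mul]; positivity
  have ii : ∀ a b : ℝ, a ≤ b → IntervalIntegrable (fun t => Gf N c x t ^ (2 * p)) volume a b :=
    fun a b hab => Gf_ii hN c x _ hab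
  have blk : ∀ T' : ℝ, T / 2 ≤ T' → T' ≤ 4 * T →
      (∫ t in (T' + s)..(2 * T' + s), Gf N c x t ^ (2 * p)) ≤
        4 * C * (1 + C4) ^ p * T * (1 + |Vh T c x|) ^ p := by
    intro T' h1 h2
    rw [← int_shift]
    have q1 := H T' (by linarith) m c (fun i => x i + s) hA.1 hA.2.1 (shifts t2 hA h1 h2)
    rw [Vh_shift] at q1
    have q2 := H4 T T' hT20 h1 h2 m c x hA.1
    have q3 : 1 + |Vh T' c x| ≤ (1 + C4) * (1 + |Vh T c x|) := by
      have q4 : |Vh T' c x| ≤ |Vh T' c x - Vh T c x| + |Vh T c x| := by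
        have := abs_add_le (Vh T' c x - Vh T c x) (Vh T c x)
        simpa using this
      have q5 : 0 ≤ C4 * |Vh T c x| := by positivity
      have q6 : (1 + C4) * (1 + |Vh T c x|) = 1 + C4 + |Vh T c x| + C4 * |Vh T c x| := by ring
      linarith
    have q7 : (1 + |Vh T' c x|) ^ p ≤ ((1 + C4) * (1 + |Vh T c x|)) ^ p :=
      pow_le_pow_left₀ (by linarith [abs_nonneg (Vh T' c x)]) q3 p
    rw [mul_pow] at q7
    calc _ ≤ C * T' * (1 + |Vh T' c x|) ^ p := q1
      _ ≤ C * (4 * T) * ((1 + C4) ^ p * (1 + |Vh T c x|) ^ p) :=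
        mul_le_mul (mul_le_mul_of_nonneg_left h2 hC.le) q7 (by positivity) (by positivity)
      _ = _ := by ring
  have b1 := blk (7 * T / 10) (by linarith) (by linarith)
  have b2 := blk (14 * T / 10) (by linarith) (by linarith)
  have b3 := blk (28 * T / 10) (by linarith) (by linarith)
  have g1 : 2 * (7 * T / 10) + s = 14 * T / 10 + s := by ring
  have g2 : 2 * (14 * T / 10) + s = 28 * T / 10 + s := by ring
  rw [g1] at b1
  rw [g2] at b2
  have e2 : (∫ t in (3 * T / 4)..(3 * T), Gf N c x t ^ (2 * p)) ≤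
      ∫ t in (7 * T / 10 + s)..(2 * (28 * T / 10) + s), Gf N c x t ^ (2 * p) :=
    intervalIntegral.integral_mono_interval (by linarith) (by linarith)
      (by linarith) (Eventually.of_forall f0) (ii _ _ (by linarith))
  have e3 : (∫ t in (7 * T / 10 + s)..(2 * (28 * T / 10) + s), Gf N c x t ^ (2 * p)) =
      (∫ t in (7 * T / 10 + s)..(14 * T / 10 + s), Gf N c x t ^ (2 * p)) +
      (∫ t in (14 * T / 10 + s)..(28 * T / 10 + s), Gf N c x t ^ (2 * p)) +
      ∫ t in (28 * T / 10 + s)..(2 * (28 * T / 10) + s), Gf N c x t ^ (2 * p) := by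
    rw [intervalIntegral.integral_add_adjacent_intervals (ii _ _ (by linarith))
      (ii _ _ (by linarith)), intervalIntegral.integral_add_adjacent_intervals
      (ii _ _ (by linarith)) (ii _ _ (by linarith))]
  rw [e3] at e2
  calc _ ≤ _ := e2
    _ ≤ 4 * C * (1 + C4) ^ p * T * (1 + |Vh T c x|) ^ p +
        4 * C * (1 + C4) ^ p * T * (1 + |Vh T c x|) ^ p +
        4 * C * (1 + C4) ^ p * T * (1 + |Vh T c x|) ^ p := add_le_add (add_le_add b1 b2) b3
    _ = _ := by ring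

theorem m2 (k : ℕ) : ∃ C T0 : ℝ, 0 < C ∧ 10 ≤ T0 ∧ ∀ T : ℝ, T0 ≤ T → ∀ (m : ℕ)
    (c x : Fin m → ℝ), Adm T c x →
    |1 / T * (∫ t in T..(2 * T), Gf N c x t ^ k) - gM k (Vh T c x)| ≤
      C * (1 + |Vh T c x|) ^ (((k : ℝ) - 1) / 2) := by
  rcases Nat.eq_zero_or_pos k with rfl | hk
  · refine ⟨1, 10, one_pos, le_refl _, fun T hTT m c x h1 => ?_⟩
    have hT0 : (0 : ℝ) < T := by linarith
    have hV := abs_nonneg (Vh T c x)
    simp only [pow_zero]
    rw [gM_zero, intervalIntegral.integral_const, smul_eq_mul, mul_one]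
    have : 1 / T * (2 * T - T) = 1 := by field_simp; ring
    rw [this, sub_self, abs_zero]
    positivity
  obtain ⟨C2, T2, hC2, hT2, H2⟩ := mA hN hZ hC1 hcmp hT3 k hk
  obtain ⟨C3, T3, hC3, hT3', H3⟩ := m3 hN hZ hC1 hcmp hT3 hP k
  obtain ⟨C5, hC5, H5⟩ := Vh_size hP
  refine ⟨C2 + 2 * (1 + C3 * (1 + C5)), max (max T2 T3) (Real.exp 20), by positivity,
    le_max_of_le_left (le_max_of_le_left hT2), ?_⟩
  intro T hT m c x hA
  have t1 : T2 ≤ T := ((le_max_left _ _).trans (le_max_left _ _)).trans hT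
  have t3 : T3 ≤ T := ((le_max_right _ _).trans (le_max_left _ _)).trans hT
  have t2 : Real.exp 20 ≤ T := (le_max_right _ _).trans hT
  obtain ⟨hL, hT20, hs0, hs1, -⟩ := lg t2
  have hsh := shifts t2 hA (T' := T) (by linarith) (by linarith)
  set s : ℝ := T / Real.log T ^ 3 with hs
  have hTp : 0 < T := by linarith
  have k1 := H2 T t1 m c (fun i => x i + s) hA.1 hA.2.1 hsh
  rw [Vh_shift, int_shift] at k1
  have k3 := H3 T t3 m c x hA
  have hl3 : (1 : ℝ) ≤ Real.log (Real.log T) := by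
    rw [Real.le_log_iff_exp_le (by linarith)]
    linarith [Real.exp_one_lt_d9]
  have k5 := H5 T (by linarith) hl3 m c x hA.1
  set V : ℝ := Vh T c x with hV
  set L : ℝ := Real.log T with hLd
  have hL0 : 0 < L := by linarith
  have hV0 := abs_nonneg V
  set A : ℝ := 1 + |V| with hAd
  have hA1 : 1 ≤ A := by linarith
  have hA0 : 0 < A := by linarith
  have hAL : A ≤ (1 + C5) * L ^ 2 := by
    have a1 : Real.log L ≤ L := (Real.log_le_sub_one_of_pos hL0).trans (by linarith)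
    have a2 : C5 * Real.log L ≤ C5 * L := mul_le_mul_of_nonneg_left a1 hC5.le
    have a3 : L ≤ L ^ 2 := by nlinarith
    have a4 : C5 * L ≤ C5 * L ^ 2 := mul_le_mul_of_nonneg_left a3 hC5.le
    have a5 : (1 + C5) * L ^ 2 = L ^ 2 + C5 * L ^ 2 := by ring
    linarith
  set e : ℝ := ((k : ℝ) - 1) / 2 with he
  set w : ℝ := A ^ e with hw
  have hw0 : 0 < w := by positivity
  have hAk : A ^ k = w * w * A := by
    have h1 : A ^ (k : ℝ) = A ^ (e + e + 1) := by
      congr 1
      rw [he]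
      ring
    rw [← Real.rpow_natCast, h1, Real.rpow_add hA0, Real.rpow_add hA0, Real.rpow_one]
  set W : ℝ := w * L ^ 2 with hW
  have hW0 : 0 < W := by positivity
  have pt : ∀ t, |Gf N c x t ^ k| ≤ W + Gf N c x t ^ (2 * k) / W := by
    intro t
    have e0 : Gf N c x t ^ (2 * k) = |Gf N c x t ^ k| ^ 2 := by
      rw [sq_abs, ← pow_mul, mul_comm k 2]
    rw [e0]
    set z : ℝ := |Gf N c x t ^ k|
    have hz : 0 ≤ z := abs_nonneg _
    have e1 : W + z ^ 2 / W - z = ((W - z / 2) ^ 2 + 3 / 4 * z ^ 2) / W := by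
      field_simp
      ring
    have e2 : 0 ≤ ((W - z / 2) ^ 2 + 3 / 4 * z ^ 2) / W := by positivity
    linarith
  have ii : ∀ (n : ℕ) (a b : ℝ), a ≤ b → IntervalIntegrable (fun t => Gf N c x t ^ n) volume a b :=
    fun n a b hab => Gf_ii hN c x _ hab
  have f0 : ∀ t, 0 ≤ Gf N c x t ^ (2 * k) := fun t => by rw [pow_mul]; positivity
  have en : ∀ u : ℝ, 3 * T / 4 ≤ u → u + s ≤ 3 * T →
      |∫ t in u..(u + s), Gf N c x t ^ k| ≤ T * w * (1 + C3 * (1 + C5)) := by
    intro u hu1 hu2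
    have hus : u ≤ u + s := by linarith
    have iR : IntervalIntegrable (fun t => W + Gf N c x t ^ (2 * k) / W) volume u (u + s) :=
      (intervalIntegrable_const).add ((ii _ _ _ hus).div_const W)
    have q1 : |∫ t in u..(u + s), Gf N c x t ^ k| ≤
        ∫ t in u..(u + s), (W + Gf N c x t ^ (2 * k) / W) := by
      rw [← Real.norm_eq_abs]
      refine intervalIntegral.norm_integral_le_of_norm_le hus
        (Eventually.of_forall fun t _ => ?_) iR
      rw [Real.norm_eq_abs]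
      exact pt t
    have q2 : (∫ t in u..(u + s), (W + Gf N c x t ^ (2 * k) / W)) =
        s * W + (∫ t in u..(u + s), Gf N c x t ^ (2 * k)) / W := by
      rw [intervalIntegral.integral_add intervalIntegrable_const ((ii _ _ _ hus).div_const W),
        intervalIntegral.integral_const, intervalIntegral.integral_div, smul_eq_mul]
      ring
    have q3 : (∫ t in u..(u + s), Gf N c x t ^ (2 * k)) ≤
        ∫ t in (3 * T / 4)..(3 * T), Gf N c x t ^ (2 * k) :=
      intervalIntegral.integral_mono_interval hu1 hus hu2 (Eventually.of_forall f0)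
        (ii _ _ _ (by linarith))
    have q4 : (∫ t in u..(u + s), Gf N c x t ^ (2 * k)) / W ≤ C3 * T * (w * w * A) / W := by
      rw [← hAk]
      exact div_le_div_of_nonneg_right (q3.trans k3) hW0.le
    have q5 : C3 * T * (w * w * A) / W = C3 * T * w * (A / L ^ 2) := by
      rw [hW]; field_simp
    have q6 : A / L ^ 2 ≤ 1 + C5 := by
      rw [div_le_iff₀ (by positivity)]; exact hAL
    have q7 : C3 * T * w * (A / L ^ 2) ≤ C3 * T * w * (1 + C5) :=
      mul_le_mul_of_nonneg_left q6 (by positivity)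
    have q8 : s * W ≤ T * w := by
      have : s * W = T * w / L := by
        rw [hs, hW]; field_simp
      rw [this]
      exact div_le_self (by positivity) (by linarith)
    calc _ ≤ _ := q1
      _ = _ := q2
      _ ≤ T * w + C3 * T * w * (1 + C5) := add_le_add q8 (q4.trans (q5.trans_le q7))
      _ = _ := by ring
  have e1 := en T (by linarith) (by linarith)
  have e2 := en (2 * T) (by linarith) (by linarith)
  have sp1 : (∫ t in T..(T + s), Gf N c x t ^ k) + (∫ t in (T + s)..(2 * T), Gf N c x t ^ k) =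
      ∫ t in T..(2 * T), Gf N c x t ^ k :=
    intervalIntegral.integral_add_adjacent_intervals (ii _ _ _ (by linarith))
      (ii _ _ _ (by linarith))
  have sp2 : (∫ t in (T + s)..(2 * T), Gf N c x t ^ k) +
      (∫ t in (2 * T)..(2 * T + s), Gf N c x t ^ k) =
      ∫ t in (T + s)..(2 * T + s), Gf N c x t ^ k :=
    intervalIntegral.integral_add_adjacent_intervals (ii _ _ _ (by linarith))
      (ii _ _ _ (by linarith))
  set I0 : ℝ := ∫ t in T..(2 * T), Gf N c x t ^ k with hI0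
  set I1 : ℝ := ∫ t in (T + s)..(2 * T + s), Gf N c x t ^ k with hI1
  set J1 : ℝ := ∫ t in T..(T + s), Gf N c x t ^ k with hJ1
  set J2 : ℝ := ∫ t in (2 * T)..(2 * T + s), Gf N c x t ^ k with hJ2
  have d1 : I0 = I1 + J1 - J2 := by linarith
  have d2 : |1 / T * (J1 - J2)| ≤ 2 * (1 + C3 * (1 + C5)) * w := by
    rw [abs_mul, abs_of_pos (by positivity : (0 : ℝ) < 1 / T)]
    have d3 : |J1 - J2| ≤ T * (2 * (1 + C3 * (1 + C5)) * w) := by
      obtain ⟨u1, u2⟩ := abs_le.1 e1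
      obtain ⟨u3, u4⟩ := abs_le.1 e2
      have d5 : T * (2 * (1 + C3 * (1 + C5)) * w) = 2 * (T * w * (1 + C3 * (1 + C5))) := by ring
      rw [d5, abs_le]
      constructor <;> linarith
    calc 1 / T * |J1 - J2| ≤ 1 / T * (T * (2 * (1 + C3 * (1 + C5)) * w)) :=
          mul_le_mul_of_nonneg_left d3 (by positivity)
      _ = _ := by field_simp
  have d6 : 1 / T * I0 - gM k V = (1 / T * I1 - gM k V) + 1 / T * (J1 - J2) := by
    rw [d1]; ring
  rw [d6]
  calc _ ≤ |1 / T * I1 - gM k V| + |1 / T * (J1 - J2)| := abs_add_le _ _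
    _ ≤ C2 * w + 2 * (1 + C3 * (1 + C5)) * w := add_le_add k1 d2
    _ = _ := by ring

end main

theorem m1 {N : ℝ → ℕ} (hN : Monotone N) (h2 : M2 N) (p : ℕ) (B : ℝ) :
    ∃ C T0 : ℝ, 0 < C ∧ 10 ≤ T0 ∧ ∀ T : ℝ, T0 ≤ T → ∀ x y : ℝ, |x| ≤ T / Real.log T ^ 3 + B →
    |x - y| ≤ B →
    (∫ t in (3 * T / 4)..(3 * T), (sg N (t + x) - sg N (t + y)) ^ (2 * p)) ≤
      C * T * (1 + Real.log (1 + |x - y| * Real.log T)) ^ p := by
  obtain ⟨C, T0, hC, hT0, H⟩ := m1a hN h2 p B
  refine ⟨C, max T0 (max (10 * B) (Real.exp 20)), hC, hT0.trans (le_max_left _ _),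
    fun T hT x y hx hxy => ?_⟩
  have t1 : T0 ≤ T := (le_max_left _ _).trans hT
  have t2 : 10 * B ≤ T := ((le_max_left _ _).trans (le_max_right _ _)).trans hT
  have t3 : Real.exp 20 ≤ T := ((le_max_right _ _).trans (le_max_right _ _)).trans hT
  obtain ⟨hL, hT20, hs0, hs1, -⟩ := lg t3
  have hB : 0 ≤ B := (abs_nonneg _).trans hxy
  have hx4 : |x| ≤ T / 4 := by linarith
  have hy4 : |y| ≤ T / 4 := by
    have h3 : |y| ≤ |y - x| + |x| := by
      have := abs_add_le (y - x) x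
      simpa using this
    rw [abs_sub_comm] at h3
    linarith
  rcases le_total x y with h | h
  · exact H T t1 x y hx4 hxy h
  · have h1 := H T t1 y x hy4 (by rw [abs_sub_comm]; exact hxy) h
    rw [abs_sub_comm] at h1
    have e : (fun t => (sg N (t + x) - sg N (t + y)) ^ (2 * p)) =
        fun t => (sg N (t + y) - sg N (t + x)) ^ (2 * p) := by
      funext t
      rw [pow_mul, pow_mul]
      congr 1
      ring
    rw [e]
    exact h1

theorem t_MF (N : ℝ → ℕ) (g : ℕ → ℝ) : J_MF N g := by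
  intro hCN hT hP _
  have hMM := t_MM N g hCN hT
  obtain ⟨⟨C0, _, hc⟩, Z, C1, hZ, hC1, hcmp⟩ := hCN
  have hN := hc.mono
  refine ⟨fun p B => m1 hN hMM.2 p B, fun k => m2 hN hZ hC1 hcmp hT hP k,
    fun p => m3 hN hZ hC1 hcmp hT hP p, ?_⟩
  obtain ⟨C, hC, H⟩ := Vh_size hP
  refine ⟨C, max 10 (Real.exp 20), hC, le_max_left _ _, fun T hTT m c x hA => ?_⟩
  obtain ⟨hL, hT20, -⟩ := lg ((le_max_right _ _).trans hTT)
  refine H T (by linarith) ?_ m c x hA.1
  rw [Real.le_log_iff_exp_le (by linarith)]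
  linarith [Real.exp_one_lt_d9]

end Pool.Agent.U978.MV6
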