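import Pool.Agent.U688.MV4.MM
import Pool.Agent.U398.MV.Stm6

/-!
# Project MV6, package MF, part 1: the variance, the moments with shifts up to `T/(log T)²`
-/

set_option autoImplicit false

namespace Pool.Agent.U978.MV6

open MeasureTheory Filter Topology Set Pool.Agent.U398.MV Pool.Agent.U688.MV4
open scoped Nat

/-- the logarithm of zeta at the distance `1 / log T` from the line `1` -/
noncomputable def lz (T y : ℝ) : ℝ :=
  Real.log ‖riemannZeta (((1 + 1 / Real.log T : ℝ) : ℂ) + (y : ℂ) * Complex.I)‖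

theorem lz_neg (T y : ℝ) : lz T (-y) = lz T y := by
  unfold lz
  have h : (((1 + 1 / Real.log T : ℝ) : ℂ) + ((-y : ℝ) : ℂ) * Complex.I) =
      (starRingEnd ℂ) (((1 + 1 / Real.log T : ℝ) : ℂ) + (y : ℂ) * Complex.I) := by
    rw [map_add, map_mul, Complex.conj_ofReal, Complex.conj_ofReal, Complex.conj_I]
    push_cast
    ring
  rw [h, riemannZeta_conj, Complex.norm_conj]

theorem lz_abs (T y : ℝ) : lz T |y| = lz T y := by
  rcases abs_cases y with ⟨h, _⟩ | ⟨h, _⟩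
  · rw [h]
  · rw [h, lz_neg]

/-- the prime sum -/
noncomputable def PS (x s : ℝ) : ℝ :=
  ∑ p ∈ (Finset.Icc 1 ⌊x⌋₊).filter Nat.Prime, Real.cos (s * Real.log p) / p

theorem ps_diff {x y : ℝ} (h : x ≤ y) (s : ℝ) : |PS y s - PS x s| ≤ PS y 0 - PS x 0 := by
  have hsub : (Finset.Icc 1 ⌊x⌋₊).filter Nat.Prime ⊆ (Finset.Icc 1 ⌊y⌋₊).filter Nat.Prime := by
    apply Finset.filter_subset_filter
    exact Finset.Icc_subset_Icc_right (Nat.floor_mono h)
  have e : ∀ s : ℝ, PS y s - PS x s = ∑ p ∈ (Finset.Icc 1 ⌊y⌋₊).filter Nat.Prime \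
      (Finset.Icc 1 ⌊x⌋₊).filter Nat.Prime, Real.cos (s * Real.log p) / p := by
    intro s
    unfold PS
    rw [← Finset.sum_sdiff hsub]
    ring
  rw [e, e]
  refine (Finset.abs_sum_le_sum_abs _ _).trans (Finset.sum_le_sum fun p _ => ?_)
  rw [zero_mul, Real.cos_zero, abs_div, Nat.abs_cast]
  exact div_le_div_of_nonneg_right (Real.abs_cos_le_one _) (Nat.cast_nonneg _)

theorem ps_abs (x s : ℝ) : |PS x s| ≤ PS x 0 := by
  unfold PS
  refine (Finset.abs_sum_le_sum_abs _ _).trans (Finset.sum_le_sum fun p _ => ?_)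
  rw [zero_mul, Real.cos_zero, abs_div, Nat.abs_cast]
  exact div_le_div_of_nonneg_right (Real.abs_cos_le_one _) (Nat.cast_nonneg _)

theorem lz_zero : ∃ C : ℝ, 0 < C ∧ ∀ T : ℝ, 10 ≤ T →
    |lz T 0 - Real.log (Real.log T)| ≤ C := by
  obtain ⟨C, hC, h⟩ := zeta_bound 0
  refine ⟨C, hC, fun T hT => ?_⟩
  have h1 := h (Real.log T) 0 (log_ge_one hT) (by simp)
  rw [abs_zero, zero_mul, zero_div, add_zero, Real.log_one, add_zero] at h1
  exact h1

theorem lz_cmp (hP : S_PRS) : ∃ C : ℝ, 0 < C ∧ ∀ a b : ℝ, 10 ≤ a → a ≤ b → b ≤ 8 * a →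
    ∀ y : ℝ, |lz b y - lz a y| ≤ C := by
  obtain ⟨C0, hC0, h0⟩ := hP
  obtain ⟨C1, hC1, h1⟩ := lz_zero
  refine ⟨4 * C0 + 2 * C1 + 2, by positivity, fun a b ha hab hb y => ?_⟩
  rw [← lz_abs b y, ← lz_abs a y]
  have q1 : |PS b (|y|) - lz b (|y|)| ≤ C0 := h0 b (by linarith) |y| (abs_nonneg y)
  have q2 : |PS a (|y|) - lz a (|y|)| ≤ C0 := h0 a (by linarith) |y| (abs_nonneg y)
  have q3 : |PS b 0 - lz b 0| ≤ C0 := h0 b (by linarith) 0 le_rfl
  have q4 : |PS a 0 - lz a 0| ≤ C0 := h0 a (by linarith) 0 le_rfl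
  have q5 := ps_diff hab |y|
  have q6 := h1 a ha
  have q7 := h1 b (by linarith)
  have hla := log_ge_one ha
  have hl2 := Real.log_two_lt_d9
  have q8 : Real.log (Real.log b) ≤ 2 + Real.log (Real.log a) := by
    have h3 : Real.log b ≤ 4 * Real.log a := by
      have e1 : Real.log b ≤ Real.log (8 * a) := Real.log_le_log (by linarith) hb
      rw [Real.log_mul (by norm_num) (by linarith)] at e1
      have e2 : Real.log 8 = 3 * Real.log 2 := by
        rw [show (8 : ℝ) = 2 ^ 3 by norm_num, Real.log_pow]; norm_num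
      linarith
    have hlb : 0 < Real.log b := Real.log_pos (by linarith)
    calc Real.log (Real.log b) ≤ Real.log (4 * Real.log a) := Real.log_le_log hlb h3
      _ = Real.log 4 + Real.log (Real.log a) := Real.log_mul (by norm_num) (by linarith)
      _ ≤ _ := by
        have e2 : Real.log 4 = 2 * Real.log 2 := by
          rw [show (4 : ℝ) = 2 ^ 2 by norm_num, Real.log_pow]; norm_num
        linarith
  obtain ⟨a1, b1⟩ := abs_le.1 q1
  obtain ⟨a2, b2⟩ := abs_le.1 q2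
  obtain ⟨a3, b3⟩ := abs_le.1 q3
  obtain ⟨a4, b4⟩ := abs_le.1 q4
  obtain ⟨a5, b5⟩ := abs_le.1 q5
  obtain ⟨a6, b6⟩ := abs_le.1 q6
  obtain ⟨a7, b7⟩ := abs_le.1 q7
  rw [abs_le]
  constructor <;> linarith

theorem lz_size (hP : S_PRS) : ∃ C : ℝ, 0 < C ∧ ∀ T : ℝ, 10 ≤ T → 1 ≤ Real.log (Real.log T) →
    ∀ y : ℝ, |lz T y| ≤ C * Real.log (Real.log T) := by
  obtain ⟨C0, hC0, h0⟩ := hP
  obtain ⟨C1, hC1, h1⟩ := lz_zero
  refine ⟨2 * C0 + C1 + 1, by positivity, fun T hT hl y => ?_⟩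
  rw [← lz_abs T y]
  have q1 : |PS T (|y|) - lz T (|y|)| ≤ C0 := h0 T (by linarith) |y| (abs_nonneg y)
  have q3 : |PS T 0 - lz T 0| ≤ C0 := h0 T (by linarith) 0 le_rfl
  have q5 := ps_abs T |y|
  have q6 := h1 T hT
  obtain ⟨a1, b1⟩ := abs_le.1 q1
  obtain ⟨a3, b3⟩ := abs_le.1 q3
  obtain ⟨a5, b5⟩ := abs_le.1 q5
  obtain ⟨a6, b6⟩ := abs_le.1 q6
  have q9 : 2 * C0 + C1 ≤ (2 * C0 + C1) * Real.log (Real.log T) :=
    le_mul_of_one_le_right (by positivity) hl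
  have q10 : (2 * C0 + C1 + 1) * Real.log (Real.log T) =
      (2 * C0 + C1) * Real.log (Real.log T) + Real.log (Real.log T) := by ring
  rw [q10, abs_le]
  constructor <;> linarith

theorem pi_aux : |1 / (2 * Real.pi ^ 2)| ≤ 1 := by
  rw [abs_of_pos (by positivity), div_le_one (by positivity)]
  nlinarith [Real.pi_gt_three]

theorem Vh_cmp (hP : S_PRS) : ∃ C : ℝ, 0 < C ∧ ∀ a b : ℝ, 10 ≤ a → a ≤ b → b ≤ 8 * a →
    ∀ (m : ℕ) (c x : Fin m → ℝ), (∑ i, |c i|) ≤ 1 → |Vh b c x - Vh a c x| ≤ C := by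
  obtain ⟨C, hC, h⟩ := lz_cmp hP
  refine ⟨C, hC, fun a b ha hab hb m c x hc => ?_⟩
  have e : Vh b c x - Vh a c x = ∑ i, ∑ j, c i * c j *
      (1 / (2 * Real.pi ^ 2) * (lz b (x i - x j) - lz a (x i - x j))) := by
    have e2 : ∀ i j, c i * c j * (1 / (2 * Real.pi ^ 2) * (lz b (x i - x j) - lz a (x i - x j))) =
        c i * c j * (1 / (2 * Real.pi ^ 2) * lz b (x i - x j)) -
        c i * c j * (1 / (2 * Real.pi ^ 2) * lz a (x i - x j)) := by
      intro i j; ring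
    simp only [e2, Finset.sum_sub_distrib]
    rfl
  rw [e]
  refine sum_bound c _ C hC.le hc ?_
  intro i j
  rw [abs_mul]
  calc _ ≤ 1 * C := mul_le_mul pi_aux (h a b ha hab hb _) (abs_nonneg _) zero_le_one
    _ = C := one_mul _

theorem Vh_cmp2 (hP : S_PRS) : ∃ C : ℝ, 0 < C ∧ ∀ T T' : ℝ, 20 ≤ T → T / 2 ≤ T' → T' ≤ 4 * T →
    ∀ (m : ℕ) (c x : Fin m → ℝ), (∑ i, |c i|) ≤ 1 → |Vh T' c x - Vh T c x| ≤ C := by
  obtain ⟨C, hC, h⟩ := Vh_cmp hP
  refine ⟨C, hC, fun T T' hT h1 h2 m c x hc => ?_⟩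
  rcases le_total T T' with h3 | h3
  · exact h T T' (by linarith) h3 (by linarith) m c x hc
  · rw [abs_sub_comm]
    exact h T' T (by linarith) h3 (by linarith) m c x hc

theorem Vh_size (hP : S_PRS) : ∃ C : ℝ, 0 < C ∧ ∀ T : ℝ, 10 ≤ T → 1 ≤ Real.log (Real.log T) →
    ∀ (m : ℕ) (c x : Fin m → ℝ), (∑ i, |c i|) ≤ 1 → |Vh T c x| ≤ C * Real.log (Real.log T) := by
  obtain ⟨C, hC, h⟩ := lz_size hP
  refine ⟨C, hC, fun T hT hl m c x hc => ?_⟩
  have e : Vh T c x = ∑ i, ∑ j, c i * c j * (1 / (2 * Real.pi ^ 2) * lz T (x i - x j)) := rfl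
  rw [e]
  refine sum_bound c _ _ (by positivity) hc ?_
  intro i j
  rw [abs_mul]
  calc _ ≤ 1 * (C * Real.log (Real.log T)) :=
        mul_le_mul pi_aux (h T hT hl _) (abs_nonneg _) zero_le_one
    _ = _ := one_mul _

theorem Vh_shift (T s : ℝ) {m : ℕ} (c x : Fin m → ℝ) :
    Vh T c (fun i => x i + s) = Vh T c x := by
  unfold Vh
  simp only [add_sub_add_right_eq_sub]

theorem Gf_shift (N : ℝ → ℕ) (s : ℝ) {m : ℕ} (c x : Fin m → ℝ) (t : ℝ) :
    Gf N c (fun i => x i + s) t = Gf N c x (t + s) := by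
  unfold Gf
  refine Finset.sum_congr rfl fun i _ => ?_
  rw [show t + (x i + s) = t + s + x i by ring]

theorem int_shift (N : ℝ → ℕ) (s a b : ℝ) (k : ℕ) {m : ℕ} (c x : Fin m → ℝ) :
    (∫ t in a..b, Gf N c (fun i => x i + s) t ^ k) =
      ∫ t in (a + s)..(b + s), Gf N c x t ^ k := by
  rw [← intervalIntegral.integral_comp_add_right (fun t => Gf N c x t ^ k) s]
  refine intervalIntegral.integral_congr fun t _ => ?_
  simp only [Gf_shift]

theorem Gf_ii {N : ℝ → ℕ} (hN : Monotone N) {m : ℕ} (c x : Fin m → ℝ) (n : ℕ) {a b : ℝ}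
    (hab : a ≤ b) : IntervalIntegrable (fun t => Gf N c x t ^ n) volume a b := by
  obtain ⟨M, hM0, hM⟩ := bdd_Gf hN c x a b
  refine ii_of_bdd (M := M ^ n) hab ((meas_Gf hN c x).pow_const n).aestronglyMeasurable
    (Eventually.of_forall fun t ht => ?_)
  rw [abs_pow]
  exact pow_le_pow_left₀ (abs_nonneg _) (hM t ht.1.le ht.2) n

theorem mA {N : ℝ → ℕ} (hN : Monotone N) {Z : Set ℝ} {C1 : ℝ} (hZ : volume Z = 0) (hC1 : 0 < C1)
    (hcmp : ∀ t u : ℝ, t ∉ Z → u ∉ Z → 10 ≤ t → t < u → u ≤ 2 * t →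
      |(pS u - pS t) - (sg N u - sg N t)| ≤ C1)
    (hT : S_TH3) (k : ℕ) (hk : 1 ≤ k) :
    ∃ C T0 : ℝ, 0 < C ∧ 10 ≤ T0 ∧ ∀ T : ℝ, T0 ≤ T → ∀ (m : ℕ) (c x : Fin m → ℝ),
    (∑ i, |c i|) ≤ 1 → (∑ i, c i) = 0 → (∀ i, 0 ≤ x i ∧ x i ≤ T / (Real.log T) ^ 2) →
    |1 / T * (∫ t in T..(2 * T), Gf N c x t ^ k) - gM k (Vh T c x)| ≤
      C * (1 + |Vh T c x|) ^ (((k : ℝ) - 1) / 2) := by
  obtain ⟨C2, T2, hC2, hT2, H2⟩ := th3_gM hT k hk
  obtain ⟨C3, T3, hC3, hT3, H3⟩ := th3_even hT (k - 1)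
  obtain ⟨D, hD, HD⟩ := pow_cmp k hk C1 hC1.le
  set e : ℝ := ((k : ℝ) - 1) / 2 with he
  refine ⟨D * (1 + C3) + C2, max T2 T3, by positivity, hT2.trans (le_max_left _ _), ?_⟩
  intro T hTT m c x hc h0 hx1
  have t2 : T2 ≤ T := (le_max_left _ _).trans hTT
  have t3 : T3 ≤ T := (le_max_right _ _).trans hTT
  have t10 : 10 ≤ T := hT2.trans t2
  have hT0 : 0 < T := by linarith
  have hL : 1 ≤ Real.log T := log_ge_one t10
  have hBT : T / (Real.log T) ^ 2 ≤ T := div_le_self hT0.le (one_le_pow₀ hL)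
  have k2 := H2 T t2 m c x hc hx1
  have hE3 := H3 T t3 m c x hc hx1
  set V : ℝ := Vh T c x with hV
  have hk1 : (0:ℝ) ≤ e := by
    have : (1:ℝ) ≤ k := by exact_mod_cast hk
    rw [he]; linarith
  set W : ℝ := (1 + |V|) ^ e with hW
  have hV0 := abs_nonneg V
  have hW1 : 1 ≤ W := Real.one_le_rpow (by linarith) hk1
  have hW0 : 0 < W := by linarith
  have hWsq : (1 + |V|) ^ (k - 1) = W * W := by
    rw [hW, ← Real.rpow_add (by positivity), ← Real.rpow_natCast]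
    congr 1
    rw [Nat.cast_sub hk, he]
    push_cast
    ring
  set F : ℝ → ℝ := fun t => ∑ i, c i * pS (t + x i) with hF
  have hFm : Measurable F := Finset.measurable_sum _ fun i _ =>
    (meas_pS.comp (measurable_id.add_const _)).const_mul _
  have hae := ae_cmp hZ hC1 hcmp c x hc h0 hx1
  obtain ⟨M, hM0, hM⟩ := bdd_Gf hN c x T (2 * T)
  have hT2T : T ≤ 2 * T := by linarith
  have hae2 : ∀ᵐ t : ℝ, t ∈ Ioc T (2 * T) → |Gf N c x t - F t| ≤ C1 := by
    filter_upwards [hae] with t ht hm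
    exact ht (by linarith [hm.1]) (by linarith [hm.1])
  have hFb : ∀ᵐ t : ℝ, t ∈ Ioc T (2 * T) → |F t| ≤ M + C1 := by
    filter_upwards [hae2] with t ht hm
    have h1 := ht hm
    have h2 := hM t hm.1.le hm.2
    rw [abs_le] at h1 h2 ⊢
    constructor <;> linarith [h1.1, h1.2, h2.1, h2.2]
  have iG : ∀ n : ℕ, IntervalIntegrable (fun t => Gf N c x t ^ n) volume T (2 * T) :=
    fun n => Gf_ii hN c x n hT2T
  have iF : ∀ n : ℕ, IntervalIntegrable (fun t => F t ^ n) volume T (2 * T) := by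
    intro n
    refine ii_of_bdd (M := (M + C1) ^ n) hT2T (hFm.pow_const n).aestronglyMeasurable ?_
    filter_upwards [hFb] with t ht hm
    rw [abs_pow]
    exact pow_le_pow_left₀ (abs_nonneg _) (ht hm) n
  have iR : IntervalIntegrable (fun t => D * (W + F t ^ (2 * (k - 1)) / W)) volume T (2 * T) :=
    ((intervalIntegrable_const).add ((iF _).div_const W)).const_mul D
  have key : |(∫ t in T..(2 * T), Gf N c x t ^ k) - ∫ t in T..(2 * T), F t ^ k| ≤
      ∫ t in T..(2 * T), D * (W + F t ^ (2 * (k - 1)) / W) := by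
    rw [← intervalIntegral.integral_sub (iG k) (iF k), ← Real.norm_eq_abs]
    refine intervalIntegral.norm_integral_le_of_norm_le hT2T ?_ iR
    filter_upwards [hae2] with t ht hm
    rw [Real.norm_eq_abs]
    exact HD (F t) (Gf N c x t) W (ht hm) hW1
  have key2 : (∫ t in T..(2 * T), D * (W + F t ^ (2 * (k - 1)) / W)) =
      D * (T * W + (∫ t in T..(2 * T), F t ^ (2 * (k - 1))) / W) := by
    rw [intervalIntegral.integral_const_mul,
      intervalIntegral.integral_add intervalIntegrable_const ((iF _).div_const W),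
      intervalIntegral.integral_const, intervalIntegral.integral_div, smul_eq_mul]
    ring
  rw [key2] at key
  rw [hWsq] at hE3
  set IG : ℝ := ∫ t in T..(2 * T), Gf N c x t ^ k with hIG
  set IF : ℝ := ∫ t in T..(2 * T), F t ^ k with hIF
  set I2 : ℝ := ∫ t in T..(2 * T), F t ^ (2 * (k - 1)) with hI2
  have k1 : |1 / T * IG - 1 / T * IF| ≤ D * (1 + C3) * W := by
    rw [← mul_sub, abs_mul, abs_of_pos (by positivity : (0 : ℝ) < 1 / T)]
    have q1 : 1 / T * |IG - IF| ≤ 1 / T * (D * (T * W + I2 / W)) :=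
      mul_le_mul_of_nonneg_left key (by positivity)
    have q2 : 1 / T * (D * (T * W + I2 / W)) = D * (W + (1 / T * I2) / W) := by field_simp
    have q3 : (1 / T * I2) / W ≤ C3 * W := by
      rw [div_le_iff₀ hW0]
      linarith
    rw [q2] at q1
    refine q1.trans ?_
    have q4 := mul_le_mul_of_nonneg_left q3 hD.le
    linarith
  have k4 : |1 / T * IG - gM k V| ≤ |1 / T * IG - 1 / T * IF| + |1 / T * IF - gM k V| := by
    have q1 := abs_add_le (1 / T * IG - 1 / T * IF) (1 / T * IF - gM k V)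
    have q2 : 1 / T * IG - 1 / T * IF + (1 / T * IF - gM k V) = 1 / T * IG - gM k V := by ring
    rw [q2] at q1
    exact q1
  calc _ ≤ _ := k4
    _ ≤ D * (1 + C3) * W + C2 * W := add_le_add k1 k2
    _ = _ := by ring

end Pool.Agent.U978.MV6
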